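import Mathlib
import Pool.Agent.H9.StA
import Pool.Agent.H9.StD

set_option autoImplicit false

namespace Pool.Agent.Results.MP_409a13_co.BlockEight

/-- A Steiner system `S(n,q,r)` exists: a family of `q`-subsets of an `n`-set such that every
`r`-subset lies in exactly one member. -/
def Steiner (n q r : ℕ) : Prop :=
  ∃ B : Finset (Finset (Fin n)), (∀ b ∈ B, b.card = q) ∧
    ∀ T : Finset (Fin n), T.card = r → ∃! b, b ∈ B ∧ T ⊆ b

theorem of_on {n q : ℕ} (h : H9St.StOn (Fin n) q) : Steiner n q 2 := by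
  obtain ⟨B, h1, h2⟩ := h
  refine ⟨B, h1, fun T hT => ?_⟩
  obtain ⟨x, y, hxy, rfl⟩ := Finset.card_eq_two.1 hT
  simpa [Finset.insert_subset_iff] using h2 x y hxy

open H9St in
theorem result :
    ∀ n ∈ [1065, 1737, 3753], Steiner n 8 2 := by
  simp only [List.forall_mem_cons, List.not_mem_nil, IsEmpty.forall_iff, implies_true, and_true]
  exact ⟨of_on s1065, of_on s1737, of_on s3753⟩

end Pool.Agent.Results.MP_409a13_co.BlockEight
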