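import Mathlib
import Pool.Agent.H9.StF166
import Pool.Agent.H9.StF231
import Pool.Agent.H9.StF256
import Pool.Agent.H9.StH316
import Pool.Agent.H9.StH351
import Pool.Agent.H9.StH376
import Pool.Agent.H9.StH406
import Pool.Agent.H9.StH411
import Pool.Agent.H9.StH436
import Pool.Agent.H9.StH471
import Pool.Agent.H9.StH561
import Pool.Agent.H9.StH591
import Pool.Agent.H9.StY616
import Pool.Agent.H9.StH646
import Pool.Agent.H9.StH676
import Pool.Agent.H9.StH771
import Pool.Agent.H9.StH796
import Pool.Agent.H9.StH801

set_option autoImplicit false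

namespace Pool.Agent.Results.MP_409a13_co.BlockSix

/-- A Steiner system `S(n,q,r)` exists: a family of `q`-subsets of an `n`-set such that every
`r`-subset lies in exactly one member. -/
def Steiner (n q r : ℕ) : Prop :=
  ∃ B : Finset (Finset (Fin n)), (∀ b ∈ B, b.card = q) ∧
    ∀ T : Finset (Fin n), T.card = r → ∃! b, b ∈ B ∧ T ⊆ b

theorem of_on {n q : ℕ} (h : H9St.StOn (Fin n) q) : Steiner n q 2 := by
  obtain ⟨B, h1, h2⟩ := h
  refine ⟨B, h1, fun T hT => ?_⟩
  obtain ⟨x, y, hxy, rfl⟩ := Finset.card_eq_two.1 hT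
  simpa [Finset.insert_subset_iff] using h2 x y hxy

open H9St in
theorem result :
    ∀ n ∈ [166, 231, 256, 316, 351, 376, 406, 411, 436, 471, 561, 591, 616, 646, 676, 771, 796, 801], Steiner n 6 2 := by
  simp only [List.forall_mem_cons, List.not_mem_nil, IsEmpty.forall_iff, implies_true, and_true]
  exact ⟨of_on s166, of_on s231, of_on s256, of_on s316, of_on s351, of_on s376, of_on s406,
    of_on s411, of_on s436, of_on s471, of_on s561, of_on s591, of_on s616, of_on s646,
    of_on s676, of_on s771, of_on s796, of_on s801⟩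

end Pool.Agent.Results.MP_409a13_co.BlockSix
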