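import Mathlib
import Pool.Agent.H9.St3v125
import Pool.Agent.H9.St3v137
import Pool.Agent.H9.St3v146
import Pool.Agent.H9.St3v197
import Pool.Agent.H9.St3v206

set_option autoImplicit false

namespace Pool.Agent.Results.MP_409a13_co.ThreeDesigns

/-- A Steiner system `S(n,q,r)` exists: a family of `q`-subsets of an `n`-set such that every
`r`-subset lies in exactly one member. -/
def Steiner (n q r : ℕ) : Prop :=
  ∃ B : Finset (Finset (Fin n)), (∀ b ∈ B, b.card = q) ∧
    ∀ T : Finset (Fin n), T.card = r → ∃! b, b ∈ B ∧ T ⊆ b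

theorem of_on {n q : ℕ} (h : H9St.St3 (Fin n) q) : Steiner n q 3 := by
  obtain ⟨B, h1, h2⟩ := h
  refine ⟨B, h1, fun T hT => ?_⟩
  obtain ⟨x, y, z, hxy, hxz, hyz, rfl⟩ := Finset.card_eq_three.1 hT
  simpa [Finset.insert_subset_iff] using h2 x y z hxy hxz hyz

open H9St in
theorem result : ∀ v ∈ [125, 137, 146, 197, 206], ∀ k : ℕ, Steiner ((v - 1) * 4 ^ k + 1) 5 3 := by
  simp only [List.forall_mem_cons, List.not_mem_nil, IsEmpty.forall_iff, implies_true, and_true]
  exact ⟨fun k => of_on (st3_pow (by norm_num) t125 k), fun k => of_on (st3_pow (by norm_num) t137 k),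
    fun k => of_on (st3_pow (by norm_num) t146 k), fun k => of_on (st3_pow (by norm_num) t197 k),
    fun k => of_on (st3_pow (by norm_num) t206 k)⟩

end Pool.Agent.Results.MP_409a13_co.ThreeDesigns
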